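import Pool.Agent.H2.EDF.Aff4

/-!
# Polynomial self-maps of affine space whose topological degree is larger than `λ_(N - 2)`
-/

set_option autoImplicit false

namespace Pool.Agent.Results.MP_ccfdad_ag.DegreeAboveLambda

open MvPolynomial

/-- Let `k` be an algebraically closed field of characteristic zero and of finite transcendence
degree over `ℚ`, for instance `Q̄`. Let `f` be a polynomial self-map of affine `N`-space over `k`,
`N ≥ 3`, without a non-constant invariant rational function. Suppose that every point `y` outside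
some hypersurface `c = 0` has at least `e` preimages under `f` and that there are real numbers
`0 ≤ μ < e` and `D` such that for all `m` the degree of index `N - 2` of `f^m` is at most
`D μ ^ m`: for all polynomials `s 0, ..., s (N - 1)` of degree at most one there is a polynomial
`g ≠ 0` such that for all `t` with `g(t) ≠ 0` there are at most `D μ ^ m` points `x` which satisfy
the `N - 2` equations `s i = t i`, `i < N - 2`, at `f^m(x)` and the two equations `s i = t i`,
`i ≥ N - 2`, at `x` (that is, `e > λ_(N - 2)(f)`). Then for every nonzero polynomial `b` there is a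
point whose forward orbit is contained in `b ≠ 0` and Zariski dense. -/
theorem result (k : Type) [Field k] [CharZero k] [IsAlgClosed k]
    (hk : ∃ s : Finset k, Algebra.IsAlgebraic (IntermediateField.adjoin ℚ (s : Set k)) k)
    (N : ℕ) (hN : 3 ≤ N) (f : Fin N → MvPolynomial (Fin N) k)
    (hinv : ¬ ∃ p q : MvPolynomial (Fin N) k, q ≠ 0 ∧ (∀ s : k, p ≠ C s * q) ∧
      aeval f p * q = aeval f q * p)
    (e : ℕ) (μ D : ℝ) (hμ : 0 ≤ μ) (hμe : μ < e)
    (hpre : ∃ c : MvPolynomial (Fin N) k, c ≠ 0 ∧ ∀ y : Fin N → k, eval y c ≠ 0 →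
      ∃ S : Finset (Fin N → k), S.card = e ∧ ∀ x ∈ S, (fun i => eval x (f i)) = y)
    (hdeg : ∀ (m : ℕ) (s : Fin N → MvPolynomial (Fin N) k), (∀ i, (s i).totalDegree ≤ 1) →
      ∃ g : MvPolynomial (Fin N) k, g ≠ 0 ∧ ∀ t : Fin N → k, eval t g ≠ 0 →
        ∀ S : Finset (Fin N → k),
          (∀ x ∈ S, ∀ i : Fin N,
            ((i : ℕ) < N - 2 →
              eval ((fun (z : Fin N → k) (l : Fin N) => eval z (f l))^[m] x) (s i) = t i) ∧
            (N - 2 ≤ (i : ℕ) → eval x (s i) = t i)) →
          (S.card : ℝ) ≤ D * μ ^ m)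
    (b : MvPolynomial (Fin N) k) (hb : b ≠ 0) :
    ∃ x : Fin N → k,
      (∀ m : ℕ, eval ((fun (z : Fin N → k) (l : Fin N) => eval z (f l))^[m] x) b ≠ 0) ∧
      ∀ q : MvPolynomial (Fin N) k,
        (∀ m : ℕ, eval ((fun (z : Fin N → k) (l : Fin N) => eval z (f l))^[m] x) q = 0) →
        q = 0 := by
  have hdom : ∀ q : MvPolynomial (Fin N) k, aeval f q = 0 → q = 0 := by
    intro q hq
    obtain ⟨c, hc, hpc⟩ := hpre
    have h1 : q * c = 0 := by
      apply MvPolynomial.funext
      intro y
      rw [map_mul, map_zero]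
      by_cases hy : eval y c = 0
      · rw [hy, mul_zero]
      · obtain ⟨S, hS, hSx⟩ := hpc y hy
        have h2 : 0 < S.card := by
          rw [hS]
          have h3 : (0 : ℝ) < e := lt_of_le_of_lt hμ hμe
          exact_mod_cast h3
        obtain ⟨x, hx⟩ := Finset.card_pos.1 h2
        have h4 : eval y q = 0 := by
          rw [← hSx x hx]
          have h5 : eval x (aeval f q) = 0 := by rw [hq, map_zero]
          rw [Pool.Agent.H2.EDF.eval_aevalG] at h5
          exact h5
        rw [h4, zero_mul]
    exact (mul_eq_zero.1 h1).resolve_right hc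
  exact Pool.Agent.H2.EDF.affG (by omega) hk f hdom hinv e μ D hμ hμe hpre hdeg b hb

end Pool.Agent.Results.MP_ccfdad_ag.DegreeAboveLambda
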