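import Pool.Agent.H2.EDF.Aff4

/-!
# Polynomial self-maps of affine space with `λ_1 > λ_3`
-/

set_option autoImplicit false

namespace Pool.Agent.Results.MP_ccfdad_ag.FirstAboveThird

open MvPolynomial

/-- Let `f` be a dominant polynomial self-map of affine `N`-space over `Q̄`, `N ≥ 3`, without a
non-constant invariant rational function. Suppose that there are real numbers `0 ≤ μ' < μ` and `D`
such that

* for infinitely many `m` the degree of index one of `f^m` is at least `μ ^ m`: there are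
  polynomials `s 0, ..., s (N - 1)` of degree at most one and a polynomial `g ≠ 0` such that for
  all `t` with `g(t) ≠ 0` at least `μ ^ m` points `x` satisfy the equation `s 0 = t 0` at `f^m(x)`
  and the `N - 1` equations `s i = t i`, `i ≥ 1`, at `x`;
* for all `m` the degree of index three of `f^m` is at most `D μ' ^ m`: for all polynomials
  `s 0, ..., s (N - 1)` of degree at most one there is a polynomial `g ≠ 0` such that for all `t`
  with `g(t) ≠ 0` at most `D μ' ^ m` points `x` satisfy the three equations `s i = t i`, `i < 3`,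
  at `f^m(x)` and the `N - 3` equations `s i = t i`, `i ≥ 3`, at `x`

(that is, `λ_1(f) > λ_3(f)`). Then for every nonzero polynomial `b` there is a point whose forward
orbit is contained in `b ≠ 0` and Zariski dense. -/
theorem result (N : ℕ) (hN : 3 ≤ N) (f : Fin N → MvPolynomial (Fin N) (AlgebraicClosure ℚ))
    (hdom : ∀ q : MvPolynomial (Fin N) (AlgebraicClosure ℚ), aeval f q = 0 → q = 0)
    (hinv : ¬ ∃ p q : MvPolynomial (Fin N) (AlgebraicClosure ℚ), q ≠ 0 ∧
      (∀ s : AlgebraicClosure ℚ, p ≠ C s * q) ∧ aeval f p * q = aeval f q * p)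
    (μ μ' D : ℝ) (hμ' : 0 ≤ μ') (hμ : μ' < μ)
    (hone : ∀ M : ℕ, ∃ m : ℕ, M ≤ m ∧
      ∃ (s : Fin N → MvPolynomial (Fin N) (AlgebraicClosure ℚ))
        (g : MvPolynomial (Fin N) (AlgebraicClosure ℚ)), (∀ i, (s i).totalDegree ≤ 1) ∧ g ≠ 0 ∧
        ∀ t : Fin N → AlgebraicClosure ℚ, eval t g ≠ 0 →
          ∃ S : Finset (Fin N → AlgebraicClosure ℚ), μ ^ m ≤ (S.card : ℝ) ∧
            ∀ x ∈ S, ∀ i : Fin N,
              ((i : ℕ) < 1 → eval ((fun (z : Fin N → AlgebraicClosure ℚ) (l : Fin N) =>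
                eval z (f l))^[m] x) (s i) = t i) ∧
              (1 ≤ (i : ℕ) → eval x (s i) = t i))
    (hthree : ∀ (m : ℕ) (s : Fin N → MvPolynomial (Fin N) (AlgebraicClosure ℚ)),
      (∀ i, (s i).totalDegree ≤ 1) →
      ∃ g : MvPolynomial (Fin N) (AlgebraicClosure ℚ), g ≠ 0 ∧
        ∀ t : Fin N → AlgebraicClosure ℚ, eval t g ≠ 0 →
          ∀ S : Finset (Fin N → AlgebraicClosure ℚ),
            (∀ x ∈ S, ∀ i : Fin N,
              ((i : ℕ) < 3 → eval ((fun (z : Fin N → AlgebraicClosure ℚ) (l : Fin N) =>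
                eval z (f l))^[m] x) (s i) = t i) ∧
              (3 ≤ (i : ℕ) → eval x (s i) = t i)) →
            (S.card : ℝ) ≤ D * μ' ^ m)
    (b : MvPolynomial (Fin N) (AlgebraicClosure ℚ)) (hb : b ≠ 0) :
    ∃ x : Fin N → AlgebraicClosure ℚ,
      (∀ m : ℕ, eval ((fun (z : Fin N → AlgebraicClosure ℚ) (l : Fin N) =>
        eval z (f l))^[m] x) b ≠ 0) ∧
      ∀ q : MvPolynomial (Fin N) (AlgebraicClosure ℚ),
        (∀ m : ℕ, eval ((fun (z : Fin N → AlgebraicClosure ℚ) (l : Fin N) =>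
          eval z (f l))^[m] x) q = 0) →
        q = 0 := by
  refine Pool.Agent.H2.EDF.affA hN f hdom hinv μ μ' D hμ' hμ (fun M => ?_) hthree b hb
  obtain ⟨m, hm, s, g, hs, hg, hpts⟩ := hone M
  exact ⟨m, hm, s, g, hs, hg, hpts⟩

end Pool.Agent.Results.MP_ccfdad_ag.FirstAboveThird
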