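import Pool.Agent.H37.DEN.All

/-!
# Polynomial self-maps of affine space: non-birational maps in dimension three
-/

set_option autoImplicit false

namespace Pool.Agent.Results.MP_ccfdad_ag.NonBirational

open MvPolynomial

/-- Let `f` be a dominant polynomial self-map of affine 3-space over `Q̄` which is not birational
(the polynomials `f i` do not generate the field of rational functions) and which has no
non-constant invariant rational function. Then for every nonzero polynomial `b` there is a point
whose forward orbit is contained in `b ≠ 0` and Zariski dense. -/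
theorem result (f : Fin 3 → MvPolynomial (Fin 3) (AlgebraicClosure ℚ))
    (b : MvPolynomial (Fin 3) (AlgebraicClosure ℚ))
    (hdom : ∀ q : MvPolynomial (Fin 3) (AlgebraicClosure ℚ), aeval f q = 0 → q = 0)
    (hinv : ¬ ∃ p q : MvPolynomial (Fin 3) (AlgebraicClosure ℚ),
      q ≠ 0 ∧
      (∀ s : AlgebraicClosure ℚ, p ≠ MvPolynomial.C s * q) ∧
      MvPolynomial.aeval f p * q = MvPolynomial.aeval f q * p)
    (hnb : IntermediateField.adjoin (AlgebraicClosure ℚ) (Set.range fun i : Fin 3 =>
      algebraMap (MvPolynomial (Fin 3) (AlgebraicClosure ℚ))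
        (FractionRing (MvPolynomial (Fin 3) (AlgebraicClosure ℚ))) (f i)) ≠ ⊤)
    (hb : b ≠ 0) :
    ∃ P : Fin 3 → AlgebraicClosure ℚ,
      (∀ m : ℕ, eval ((fun (z : Fin 3 → AlgebraicClosure ℚ) (j : Fin 3) =>
        eval z (f j))^[m] P) b ≠ 0) ∧
      ∀ h : MvPolynomial (Fin 3) (AlgebraicClosure ℚ),
        (∀ m : ℕ, eval ((fun (z : Fin 3 → AlgebraicClosure ℚ) (j : Fin 3) =>
          eval z (f j))^[m] P) h = 0) →
        h = 0 := by
  have hinj : Function.Injective (aeval f : MvPolynomial (Fin 3) (AlgebraicClosure ℚ) →ₐ[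
      AlgebraicClosure ℚ] MvPolynomial (Fin 3) (AlgebraicClosure ℚ)) := by
    rw [injective_iff_map_eq_zero]
    exact hdom
  exact Pool.Agent.H37.DEN.n3all f b hinj hinv (Or.inl hnb) hb

end Pool.Agent.Results.MP_ccfdad_ag.NonBirational
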