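import Pool.Agent.H14.TOW.All
import Pool.Agent.H14.TOW.Clo

/-!
# Polynomial self-maps of affine space which preserve a tower of fibrations with small fibres
-/

set_option autoImplicit false

namespace Pool.Agent.Results.MP_ccfdad_ag.TowersOfFibrations

open MvPolynomial

/-- Let `k` be an algebraically closed field of characteristic zero and of finite transcendence
degree over `ℚ`, for instance `Q̄`. Let `f` be a dominant polynomial self-map of affine `N`-space
over `k` and let `σ` be the endomorphism `a ↦ a ∘ f` of the field `K` of rational functions (given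
by `σ (X i) = f i`; it exists because `f` is dominant). Suppose that only the constants are
invariant. Let `E 0 ≤ E 1 ≤ … ≤ E s = K` be subfields with `σ (E t) ⊆ E t` (a tower of fibrations
which is preserved by `f`) such that `E 0` has transcendence degree at most two, and for each
`t < s` the transcendence degree of `E (t+1)` over `E t` is at most one, or it is at most two,
`E t` and `E (t+1)` are algebraically closed in `K` and `f` is not birational on the fibres
(`E t` and `σ (E (t+1))` do not generate `E (t+1)`). Then for every polynomial `b ≠ 0` some point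
`z` has a forward orbit which is contained in `b ≠ 0` and Zariski dense. -/
theorem result (k : Type) [Field k] [CharZero k] [IsAlgClosed k]
    (hk : ∃ s : Finset k, Algebra.IsAlgebraic (IntermediateField.adjoin ℚ (s : Set k)) k)
    (N : ℕ) (f : Fin N → MvPolynomial (Fin N) k)
    (σ : FractionRing (MvPolynomial (Fin N) k) →ₐ[k] FractionRing (MvPolynomial (Fin N) k))
    (hσ : ∀ i, σ (algebraMap (MvPolynomial (Fin N) k) (FractionRing (MvPolynomial (Fin N) k))
      (X i)) = algebraMap (MvPolynomial (Fin N) k) (FractionRing (MvPolynomial (Fin N) k)) (f i))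
    (hinv : ∀ a, σ a = a → ∃ c : k, a = algebraMap k _ c)
    (s : ℕ) (E : ℕ → IntermediateField k (FractionRing (MvPolynomial (Fin N) k)))
    (hE : E s = ⊤) (h0 : Algebra.trdeg k (E 0) ≤ 2)
    (hst : ∀ t ≤ s, ∀ a ∈ E t, σ a ∈ E t)
    (hstep : ∀ t < s, E t ≤ E (t + 1) ∧
      (Algebra.trdeg k (E (t + 1)) ≤ Algebra.trdeg k (E t) + 1 ∨
        (Algebra.trdeg k (E (t + 1)) ≤ Algebra.trdeg k (E t) + 2 ∧
          (∀ a, IsAlgebraic (E t) a → a ∈ E t) ∧
          (∀ a, IsAlgebraic (E (t + 1)) a → a ∈ E (t + 1)) ∧
          ¬ E (t + 1) ≤ IntermediateField.adjoin k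
            ((E t : Set (FractionRing (MvPolynomial (Fin N) k))) ∪
              σ '' (E (t + 1) : Set (FractionRing (MvPolynomial (Fin N) k)))))))
    (b : MvPolynomial (Fin N) k) (hb : b ≠ 0) :
    ∃ z : Fin N → k,
      (∀ j : ℕ, eval ((fun (y : Fin N → k) (i : Fin N) => eval y (f i))^[j] z) b ≠ 0) ∧
      ∀ c : MvPolynomial (Fin N) k,
        (∀ j : ℕ, eval ((fun (y : Fin N → k) (i : Fin N) => eval y (f i))^[j] z) c = 0) →
        c = 0 :=
  Pool.Agent.H14.TOW.towers_poly' k (Pool.Agent.H14.TOW.All.tow k hk) N f σ hσ hinv s E hE h0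
    hst hstep b hb

end Pool.Agent.Results.MP_ccfdad_ag.TowersOfFibrations
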